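import Mathlib
import Pool.Agent.Lib.MP_c3d375_an.Final

/-!
# `W(C₁, C₂)` when `C₁` is a cone or a strip and `C₂` is any closed convex set

If `C₁` is a closed convex cone or a closed strip, then two admissible pairs `(T₁, f₁)`, `(T₂, f₂)`
can be mixed: one moves `T₂` far away by an affine automorphism `α` of `C₁` and joins `f₁` and
`f₂ ∘ α⁻¹` by means of a holomorphic function `χ` on `C₁` which is almost real with values almost
in `[0, 1]`, almost `0` near `T₁` and almost `1` near `α(T₂)`.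
-/

namespace Pool.Agent.Results.MP_c3d375_an.ConeOrStrip

open Complex Metric Set
open Pool.Agent.Lib.MP_c3d375_an

theorem result (C₁ C₂ : Set ℂ) (hcl₁ : IsClosed C₁) (hconv₁ : Convex ℝ C₁)
    (hint₁ : (interior C₁).Nonempty) (hcl₂ : IsClosed C₂) (hconv₂ : Convex ℝ C₂)
    (hshape : (∃ p : ℂ, ∀ w ∈ C₁, ∀ s : ℝ, 0 ≤ s → p + s * (w - p) ∈ C₁) ∨
      (∃ c d : ℂ, d ≠ 0 ∧ C₁ = {z : ℂ | |((z - c) / d).im| ≤ 1})) :
    Convex ℝ (closure (W C₁ C₂)) ∧ interior (closure (W C₁ C₂)) ⊆ W C₁ C₂ ∧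
    ((∃ q ∈ C₂, ∀ w ∈ C₂, ∀ s : ℝ, 0 ≤ s → q + s * (w - q) ∈ C₂) → Convex ℝ (W C₁ C₂)) := by
  obtain ⟨c₀, hc₀⟩ := hint₁
  by_cases huniv : C₁ = univ
  · rw [huniv, W_univ hcl₂ hconv₂, hcl₂.closure_eq]
    exact ⟨hconv₂, interior_subset, fun _ => hconv₂⟩
  · have hmix : Mixable C₁ := by
      rcases hshape with ⟨p, hp⟩ | ⟨c, d, hd, rfl⟩
      · exact cone_mixable hcl₁ hconv₁ huniv hc₀ hp
      · exact strip_mixable hd
    obtain ⟨h1, h2, h3⟩ := conclusion hcl₁ hconv₁ hc₀ hmix hcl₂ hconv₂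
    exact ⟨h1, h2, fun ⟨q, hq, hcone⟩ => h3 q hq hcone⟩

end Pool.Agent.Results.MP_c3d375_an.ConeOrStrip
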