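import Mathlib
import Pool.Agent.Lib.MP_c3d375_an.Cone

/-!
# `W(D, C₂)` for closed discs `D` and wide or conical convex sets `C₂`

The heart of the proof is the following mapping theorem: if `w(T) ≤ 1` and `f` maps a neighbourhood
of the closed unit disc holomorphically, and the closed unit disc into a sector of opening `π / 2`
with vertex `0`, then `Re ⟨f(T) x, x⟩ > 0` for all `x ≠ 0` unless `f = 0`. After normalising
`|f(0)| = 1` the operator `f(T)` is the geometric mean of the accretive operators `1 + f(T)²` and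
`(1 + f(T)⁻²)⁻¹`, hence a limit of iterated arithmetic and harmonic means of accretive operators.
-/

namespace Pool.Agent.Results.MP_c3d375_an.DiscQuarterPlane

open Complex Metric Set
open Pool.Agent.Lib.MP_c3d375_an

theorem result (c : ℂ) (r : ℝ) (hr : 0 < r) (C₂ : Set ℂ) (hcl : IsClosed C₂)
    (hconv : Convex ℝ C₂) :
    (∀ u : ℂ, u ≠ 0 →
      (∀ w ∈ C₂, ∀ s t : ℝ, 0 ≤ s → 0 ≤ t → w + s * u + t * (I * u) ∈ C₂) →
      W (closedBall c r) C₂ = C₂ ∪ {w | ∃ a ∈ C₂, ∃ b ∈ C₂,
        ((starRingEnd ℂ) u * a).re + ((starRingEnd ℂ) u * b).im <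
        ((starRingEnd ℂ) u * w).re + ((starRingEnd ℂ) u * w).im} ∧
      Convex ℝ (W (closedBall c r) C₂)) ∧
    (∀ p ∈ C₂, (∀ w ∈ C₂, ∀ s : ℝ, 0 ≤ s → p + s * (w - p) ∈ C₂) →
      Convex ℝ (W (closedBall c r) C₂)) := by
  refine ⟨fun u hu hrec => ?_, fun p hp hcone => convex_W_cone hr hcl hconv hp hcone⟩
  have h := W_quarter (c := c) hr hu hrec
  refine ⟨h, ?_⟩
  rw [h]
  exact convex_union hconv _

end Pool.Agent.Results.MP_c3d375_an.DiscQuarterPlane
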