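import Mathlib
import Pool.Agent.Lib.MP_c3d375_an.Own.Main

/-!
# `W(C₁, C₂)` is not always convex

`C₁` is the image of the closed unit disc under `z ↦ z + (e/a)/(1 - a z)` (a disc with a small bump at
the point `1`), `C₂` is a compact convex set with a right angle at `0`. With `f(T)` given by the
textbook holomorphic functional calculus (`IsCalculus`), the union `WT C₁ C₂` of the numerical ranges
of `f(T)` is not convex, nor is its closure; the same is true if all the operators act on one fixed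
complex Hilbert space of dimension at least two.
-/

namespace Pool.Agent.Results.MP_c3d375_an.NotConvex

open Complex Metric Set
open Pool.Agent.Lib.MP_c3d375_an

theorem hausdorff {a : ℝ} (ha : 0 < a) (ha1 : a < 1) {e : ℝ} (he : 0 < e) :
    hausdorffDist (closedBall (0 : ℂ) 1) (C3N.C1 a e) ≤ e / (a * (1 - a)) := by
  have h1a : 0 < 1 - a := by linarith
  have key : ∀ z ∈ closedBall (0 : ℂ) 1, dist z (C3N.chi a e z) ≤ e / (a * (1 - a)) := by
    intro z hz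
    rw [mem_closedBall, dist_zero_right] at hz
    have h2 : 1 - a ≤ ‖(1 : ℂ) - a * z‖ := by
      have h3 := norm_sub_norm_le (1 : ℂ) ((a : ℂ) * z)
      rw [norm_one, norm_mul, Complex.norm_real, Real.norm_eq_abs, abs_of_pos ha] at h3
      nlinarith
    rw [dist_eq_norm, C3N.chi, sub_add_cancel_left, norm_neg, norm_div, Complex.norm_real,
      Real.norm_eq_abs, abs_of_pos (by positivity), ← div_div]
    gcongr
  refine hausdorffDist_le_of_mem_dist (by positivity) (fun z hz => ⟨_, mem_image_of_mem _ hz, key z hz⟩)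
    ?_
  rintro _ ⟨z, hz, rfl⟩
  exact ⟨z, hz, by rw [dist_comm]; exact key z hz⟩

theorem result : ∃ a : ℝ, 0 < a ∧ a < 1 ∧ ∃ e₀ : ℝ, 0 < e₀ ∧ ∀ e : ℝ, 0 < e → e < e₀ →
    ∀ C₁ C₂ : Set ℂ, C₁ = (fun z : ℂ => z + ((e / a : ℝ) : ℂ) / (1 - a * z)) '' closedBall 0 1 →
    C₂ = {w : ℂ | 0 ≤ w.re ∧ w.re ≤ 1 / 2 ∧ |w.im| ≤ w.re - w.re ^ 3} →
    IsCompact C₁ ∧ Convex ℝ C₁ ∧ (interior C₁).Nonempty ∧
    hausdorffDist (closedBall 0 1) C₁ ≤ e / (a * (1 - a)) ∧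
    IsCompact C₂ ∧ Convex ℝ C₂ ∧ (interior C₂).Nonempty ∧
    ¬ Convex ℝ (WT C₁ C₂) ∧ ¬ Convex ℝ (closure (WT C₁ C₂)) ∧ WT C₁ C₂ = W C₁ C₂ ∧
    ∀ (H : Type) [NormedAddCommGroup H] [InnerProductSpace ℂ H] [CompleteSpace H],
      1 < Module.rank ℂ H → ¬ Convex ℝ (WH H C₁ C₂) ∧ ¬ Convex ℝ (closure (WH H C₁ C₂)) := by
  obtain ⟨a, ha, ha1, e₀, he₀, h⟩ := C3N.Own.main
  have ha0 : 0 < a := by linarith
  refine ⟨a, ha0, ha1, e₀, he₀, fun e he hlt C₁ C₂ hC₁ hC₂ => ?_⟩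
  obtain ⟨h1, h2, h3, h4, h5, h6, h7⟩ := h e he hlt
  have e1 : C₁ = C3N.C1 a e := hC₁
  have e2 : C₂ = C3N.C2 := hC₂
  subst e1 e2
  have hW : WT (C3N.C1 a e) C3N.C2 = W (C3N.C1 a e) C3N.C2 := WT_eq_W h1.isClosed h2 _
  have hsub : WH E2 (C3N.C1 a e) C3N.C2 ⊆ W (C3N.C1 a e) C3N.C2 := by
    rw [← hW]
    exact WH_subset_WT
  refine ⟨h1, h2, h3, hausdorff ha0 ha1 he, h4, h5, h6, ?_, ?_, hW, ?_⟩
  · rw [hW]
    exact h7 _ hsub subset_closure
  · rw [hW]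
    exact h7 _ (hsub.trans subset_closure) subset_rfl
  · intro H _ _ _ hH
    obtain ⟨J⟩ := exists_isometry hH
    have h8 : WH E2 (C3N.C1 a e) C3N.C2 ⊆ WH H (C3N.C1 a e) C3N.C2 := WH_mono J h1 h2
    have h9 : WH H (C3N.C1 a e) C3N.C2 ⊆ W (C3N.C1 a e) C3N.C2 := by
      rw [← hW]
      exact WH_subset_WT
    exact ⟨h7 _ h8 (h9.trans subset_closure), h7 _ (h8.trans subset_closure) (closure_mono h9)⟩

end Pool.Agent.Results.MP_c3d375_an.NotConvex
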